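import Mathlib

/-!
# Primes above a bound, by Bertrand's postulate
-/

set_option autoImplicit false

open Finset

namespace Pool.Agent.Helper68.NF

/-- `w` primes above `P`, by Bertrand's postulate -/
theorem exists_primes_above (P : ℕ) (hP : P ≠ 0) (w : ℕ) :
    ∃ LB : Finset ℕ, LB.card = w ∧ ∀ l ∈ LB, l.Prime ∧ P < l ∧ l ≤ 2 ^ w * P := by
  induction w with
  | zero => exact ⟨∅, rfl, by simp⟩
  | succ w ih =>
    obtain ⟨LB, hcard, hLB⟩ := ih
    obtain ⟨p, hp, hp1, hp2⟩ := Nat.exists_prime_lt_and_le_two_mul (2 ^ w * P)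
      (Nat.mul_ne_zero (by positivity) hP)
    have hpLB : p ∉ LB := fun h => by
      have := (hLB p h).2.2
      omega
    refine ⟨insert p LB, by rw [card_insert_of_notMem hpLB, hcard], ?_⟩
    intro l hl
    rcases mem_insert.1 hl with rfl | hl
    · refine ⟨hp, ?_, ?_⟩
      · refine lt_of_le_of_lt ?_ hp1
        exact Nat.le_mul_of_pos_left P (by positivity)
      · rw [pow_succ]
        calc l ≤ 2 * (2 ^ w * P) := hp2
          _ = 2 ^ w * 2 * P := by ring
    · obtain ⟨h1, h2, h3⟩ := hLB l hl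
      refine ⟨h1, h2, h3.trans ?_⟩
      rw [pow_succ]
      calc 2 ^ w * P ≤ 2 * (2 ^ w * P) := by omega
        _ = 2 ^ w * 2 * P := by ring

end Pool.Agent.Helper68.NF
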