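import Pool.Agent.Helper18.NF.StC
import Pool.Agent.Helper68.NF.Above

/-!
# Project NF, module NF-32: exceptions `m q` with large `q`
-/

set_option autoImplicit false

open Finset Filter Topology
open Pool.Agent.Helper18.NF Pool.Agent.Helper18.BV
open scoped Classical

namespace Pool.Agent.Helper68.NF

/-- the odd primes up to `max 3 T0` -/
noncomputable def LA (T0 : ℕ) : Finset ℕ :=
  (range (max 3 T0 + 1)).filter fun l => l.Prime ∧ l ≠ 2

theorem LA_prod_pos (T0 : ℕ) : 0 < ∏ l ∈ LA T0, l :=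
  prod_pos fun l hl => (mem_filter.1 hl).2.1.pos

theorem exists_LB (T0 : ℕ) (ε : ℝ) (hε : 0 < ε) :
    ∃ C2 : ℝ, 1 ≤ C2 ∧ ∀ (x : ℝ) (w : ℕ), 0 ≤ x → (w : ℝ) ≤ √(ε / 64) * √x →
      ∃ LB : Finset ℕ, LB.card = w ∧ (∀ l ∈ LB, l.Prime ∧ l ≠ 2 ∧ l ∉ LA T0) ∧
        (∀ l ∈ LB, w < l) ∧
        ((∏ l ∈ LA T0 ∪ LB, l : ℕ) : ℝ) ^ 4 ≤ C2 * Real.exp (ε * x / 4) := by
  set K : ℕ := max 3 T0 with hK
  have hK3 : 3 ≤ K := le_max_left _ _
  set P : ℕ := ∏ l ∈ LA T0, l with hP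
  have hP1 : 1 ≤ P := LA_prod_pos T0
  refine ⟨(P : ℝ) ^ 4 * Real.exp ((Real.log K) ^ 2 / 2), ?_, ?_⟩
  · have h1 : (1 : ℝ) ≤ (P : ℝ) ^ 4 := one_le_pow₀ (by exact_mod_cast hP1)
    have h2 : 1 ≤ Real.exp ((Real.log K) ^ 2 / 2) := Real.one_le_exp (by positivity)
    nlinarith
  intro x w hx hw
  obtain ⟨LB, hcard, hLB⟩ := exists_primes_above (K + w) (by omega) w
  have hdisj : Disjoint (LA T0) LB := by
    rw [disjoint_left]
    intro l hl hl'
    have h1 := mem_range.1 (mem_filter.1 hl).1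
    have h2 := (hLB l hl').2.1
    omega
  refine ⟨LB, hcard, ?_, ?_, ?_⟩
  · intro l hl
    obtain ⟨h1, h2, h3⟩ := hLB l hl
    refine ⟨h1, by omega, fun h4 => ?_⟩
    exact disjoint_left.1 hdisj h4 hl
  · intro l hl
    have := (hLB l hl).2.1
    omega
  · rw [prod_union hdisj, Nat.cast_mul, mul_pow, ← hP]
    -- the product over LB
    have h1 : ∏ l ∈ LB, l ≤ (2 ^ w * (K + w)) ^ w := by
      rw [← hcard]
      refine prod_le_pow_card _ _ _ fun l hl => ?_
      rw [hcard]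
      exact (hLB l hl).2.2
    have h2 : K + w ≤ K * 2 ^ w := by
      have h3 : w + 1 ≤ 2 ^ w := Nat.lt_two_pow_self
      calc K + w ≤ K * (w + 1) := by nlinarith
        _ ≤ K * 2 ^ w := Nat.mul_le_mul_left _ h3
    have h3 : ∏ l ∈ LB, l ≤ (4 ^ w * K) ^ w := by
      refine h1.trans (Nat.pow_le_pow_left ?_ w)
      calc 2 ^ w * (K + w) ≤ 2 ^ w * (K * 2 ^ w) := Nat.mul_le_mul_left _ h2
        _ = (2 * 2) ^ w * K := by rw [mul_pow]; ring
        _ = 4 ^ w * K := by norm_num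
    have hKpos : (0 : ℝ) < K := by
      have : 0 < K := by omega
      exact_mod_cast this
    have h4 : ((∏ l ∈ LB, l : ℕ) : ℝ) ≤ Real.exp (2 * (w : ℝ) ^ 2 + w * Real.log K) := by
      have h5 : ((∏ l ∈ LB, l : ℕ) : ℝ) ≤ ((4 : ℝ) ^ w * K) ^ w := by exact_mod_cast h3
      refine h5.trans ?_
      have h6 : (4 : ℝ) ≤ Real.exp 2 := by
        have h7 : (2 : ℝ) ≤ Real.exp 1 := by
          have := Real.add_one_le_exp (1 : ℝ)
          linarith
        have h8 : Real.exp 2 = Real.exp 1 * Real.exp 1 := by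
          rw [← Real.exp_add]
          norm_num
        rw [h8]
        nlinarith
      calc ((4 : ℝ) ^ w * K) ^ w ≤ (Real.exp 2 ^ w * K) ^ w := by gcongr
        _ = (Real.exp (2 * w) * Real.exp (Real.log K)) ^ w := by
            rw [Real.exp_log hKpos, ← Real.exp_nat_mul, mul_comm (w : ℝ) 2]
        _ = Real.exp (2 * (w : ℝ) ^ 2 + w * Real.log K) := by
            rw [← Real.exp_add, ← Real.exp_nat_mul]
            congr 1
            ring
    have hlogK : 0 ≤ Real.log K := Real.log_nonneg (by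
      have : 1 ≤ K := by omega
      exact_mod_cast this)
    -- compare the exponents
    have h7 : 4 * (2 * (w : ℝ) ^ 2 + w * Real.log K) ≤ (Real.log K) ^ 2 / 2 + ε * x / 4 := by
      have hw0 : (0 : ℝ) ≤ w := Nat.cast_nonneg _
      have hs : (√(ε / 64) * √x) ^ 2 = ε / 64 * x := by
        rw [mul_pow, Real.sq_sqrt (by positivity), Real.sq_sqrt hx]
      have hw2 : (w : ℝ) ^ 2 ≤ ε / 64 * x := by
        rw [← hs]
        exact pow_le_pow_left₀ hw0 hw 2
      -- 4 w L ≤ L^2/2 + 8 w^2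
      nlinarith [sq_nonneg (Real.log K - 4 * w)]
    calc (P : ℝ) ^ 4 * ((∏ l ∈ LB, l : ℕ) : ℝ) ^ 4
        ≤ (P : ℝ) ^ 4 * (Real.exp (2 * (w : ℝ) ^ 2 + w * Real.log K)) ^ 4 := by gcongr
      _ = (P : ℝ) ^ 4 * Real.exp (4 * (2 * (w : ℝ) ^ 2 + w * Real.log K)) := by
          rw [← Real.exp_nat_mul]
          norm_num
      _ ≤ (P : ℝ) ^ 4 * Real.exp ((Real.log K) ^ 2 / 2 + ε * x / 4) := by
          gcongr
      _ = (P : ℝ) ^ 4 * Real.exp ((Real.log K) ^ 2 / 2) * Real.exp (ε * x / 4) := by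
          rw [Real.exp_add]
          ring

/-- Module NF-32. -/
theorem excMul (h : MainK) : ExcMul := by
  obtain ⟨C1, hC1, hM⟩ := h
  intro ε hε hε2
  refine ⟨√(ε / 64), Real.sqrt_pos.2 (by positivity), ?_⟩
  set T0 : ℕ := ⌈2 / ε⌉₊ with hT0
  have hT0' : 2 ≤ ε * T0 := by
    have h1 : 2 / ε ≤ T0 := Nat.le_ceil _
    rw [div_le_iff₀ hε] at h1
    linarith
  obtain ⟨C2, hC2, hLB⟩ := exists_LB T0 ε hε
  -- the main estimate for one number `N`
  have key : ∀ᶠ N : ℕ in atTop,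
      (((range (N + 1)).filter (fun a => ∃ m q : ℕ, a = m * q ∧ 1 ≤ m ∧
        q.Prime ∧ (N : ℝ) ^ ε < q ∧ ¬ q ∣ m ∧
        (m.primeFactorsList.length : ℝ) ≤ √(ε / 64) * Real.sqrt (Real.log N) ∧
          ¬ Dense a)).card : ℝ) / N ≤
        C1 * C2 * ((Real.log N / Real.log 2 + 1) * (N : ℝ) ^ (-(3 * ε / 4))) := by
    have hev1 : ∀ᶠ N : ℕ in atTop, 2 ≤ N := eventually_ge_atTop 2
    have hev2 : ∀ᶠ N : ℕ in atTop, (4 : ℝ) ≤ (N : ℝ) ^ ε :=
      (((tendsto_rpow_atTop hε).comp tendsto_natCast_atTop_atTop).eventually_ge_atTop 4)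
    have hev3 : ∀ᶠ N : ℕ in atTop, C2 ≤ (N : ℝ) ^ (3 * ε / 4) :=
      (((tendsto_rpow_atTop (show 0 < 3 * ε / 4 by positivity)).comp
        tendsto_natCast_atTop_atTop).eventually_ge_atTop C2)
    filter_upwards [hev1, hev2, hev3] with N hN2 hN4 hNC
    have hNr : (2 : ℝ) ≤ N := by exact_mod_cast hN2
    have hN0 : (0 : ℝ) < N := by linarith
    have hlogN : 0 ≤ Real.log N := Real.log_nonneg (by linarith)
    set Y0 : ℕ := ⌊(N : ℝ) ^ ε⌋₊ + 1 with hY0
    have hY0lt : (N : ℝ) ^ ε < Y0 := by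
      rw [hY0]
      push_cast
      exact Nat.lt_floor_add_one _
    have hY05 : 5 ≤ Y0 := by
      have h1 : 4 ≤ ⌊(N : ℝ) ^ ε⌋₊ := Nat.le_floor (by exact_mod_cast hN4)
      omega
    set M : ℕ := ⌊(N : ℝ) ^ (1 - ε)⌋₊ with hMdef
    set L : ℕ := Nat.log 2 N + 1 with hL
    let F : ℕ → ℕ → Finset ℕ := fun m i =>
      (Ico (2 ^ i * Y0) (2 * (2 ^ i * Y0))).filter fun q => q.Prime ∧ ¬ q ∣ m ∧ ¬ Dense (m * q)
    let Ms : Finset ℕ := (Icc 1 M).filter fun m =>
      (m.primeFactorsList.length : ℝ) ≤ √(ε / 64) * Real.sqrt (Real.log N)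
    have hexp : Real.exp (ε * Real.log N / 4) = (N : ℝ) ^ (ε / 4) := by
      rw [Real.rpow_def_of_pos hN0]
      congr 1
      ring
    -- bound for one block
    have hblock : ∀ m ∈ Ms, ∀ i : ℕ, ((F m i).card : ℝ) ≤ C1 * (C2 * (N : ℝ) ^ (ε / 4)) := by
      intro m hm i
      obtain ⟨hmM, hmw⟩ := mem_filter.1 hm
      obtain ⟨hm1, hmM⟩ := mem_Icc.1 hmM
      obtain ⟨LB, hcard, hLB1, hLB2, hLB3⟩ := hLB (Real.log N) m.primeFactorsList.length hlogN hmw
      rw [hexp] at hLB3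
      by_contra hcon
      rw [not_le] at hcon
      have hD : C1 * ((∏ l ∈ LA T0 ∪ LB, l : ℕ) : ℝ) ^ 4 ≤ (F m i).card :=
        (mul_le_mul_of_nonneg_left hLB3 hC1.le).trans hcon.le
      have hYge : Y0 ≤ 2 ^ i * Y0 := Nat.le_mul_of_pos_left _ (by positivity)
      have hlY : ∀ l ∈ LA T0 ∪ LB, l < 2 ^ i * Y0 := by
        intro l hl
        have hpos : ∀ l ∈ LA T0 ∪ LB, 0 < l := by
          intro l hl
          rcases mem_union.1 hl with h1 | h1
          · exact (mem_filter.1 h1).2.1.pos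
          · exact (hLB1 l h1).1.pos
        have h1 : l ≤ ∏ l ∈ LA T0 ∪ LB, l :=
          Nat.le_of_dvd (prod_pos hpos) (dvd_prod_of_mem _ hl)
        have h2 : (1 : ℝ) ≤ ((∏ l ∈ LA T0 ∪ LB, l : ℕ) : ℝ) := by
          have : 1 ≤ ∏ l ∈ LA T0 ∪ LB, l := prod_pos hpos
          exact_mod_cast this
        have h3 : (l : ℝ) ≤ ((∏ l ∈ LA T0 ∪ LB, l : ℕ) : ℝ) := by exact_mod_cast h1
        have h4 : ((∏ l ∈ LA T0 ∪ LB, l : ℕ) : ℝ) ≤ ((∏ l ∈ LA T0 ∪ LB, l : ℕ) : ℝ) ^ 4 :=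
          le_self_pow₀ h2 (by norm_num)
        have h5 : C2 * (N : ℝ) ^ (ε / 4) ≤ (N : ℝ) ^ ε := by
          calc C2 * (N : ℝ) ^ (ε / 4) ≤ (N : ℝ) ^ (3 * ε / 4) * (N : ℝ) ^ (ε / 4) := by gcongr
            _ = (N : ℝ) ^ ε := by
                rw [← Real.rpow_add hN0]
                congr 1
                ring
        have h6 : (l : ℝ) < Y0 := by linarith
        have h7 : l < Y0 := by exact_mod_cast h6
        omega
      obtain ⟨q, hq, hqD⟩ := hM m T0 (2 ^ i * Y0) (LA T0) LB hm1 (by omega)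
        (fun l hl => (mem_filter.1 hl).2)
        (fun l hl hl2 hlT => mem_filter.2 ⟨mem_range.2 (by omega), hl, hl2⟩) hLB1 hcard hLB2 hlY
        (by
          -- 2 m Y ≤ Y ^ (T0 + 1)
          rw [pow_succ]
          refine Nat.mul_le_mul_right _ ?_
          have h1 : (m : ℝ) ≤ N := by
            have h2 : (m : ℝ) ≤ (N : ℝ) ^ (1 - ε) :=
              (Nat.cast_le.2 hmM).trans (Nat.floor_le (by positivity))
            refine h2.trans ?_
            calc (N : ℝ) ^ (1 - ε) ≤ (N : ℝ) ^ (1 : ℝ) :=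
                  Real.rpow_le_rpow_of_exponent_le (by linarith) (by linarith)
              _ = N := Real.rpow_one _
          have h3 : (N : ℝ) ^ (2 : ℝ) ≤ ((2 ^ i * Y0 : ℕ) : ℝ) ^ T0 := by
            calc (N : ℝ) ^ (2 : ℝ) ≤ (N : ℝ) ^ (ε * T0) :=
                  Real.rpow_le_rpow_of_exponent_le (by linarith) hT0'
              _ = ((N : ℝ) ^ ε) ^ T0 := by rw [Real.rpow_mul hN0.le, Real.rpow_natCast]
              _ ≤ ((2 ^ i * Y0 : ℕ) : ℝ) ^ T0 := by
                  refine pow_le_pow_left₀ (by positivity) ?_ _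
                  refine hY0lt.le.trans ?_
                  exact_mod_cast hYge
          have h4 : (N : ℝ) ^ (2 : ℝ) = (N : ℝ) * N := by
            rw [show (2 : ℝ) = ((2 : ℕ) : ℝ) by norm_num, Real.rpow_natCast, sq]
          have h6 : 2 * (m : ℝ) ≤ (N : ℝ) * N := by nlinarith
          have h5 : 2 * (m : ℝ) ≤ ((2 ^ i * Y0 : ℕ) : ℝ) ^ T0 := by
            rw [h4] at h3
            linarith
          exact_mod_cast h5) (F m i)
        (fun q hq => by
          obtain ⟨h1, h2, h3, h4⟩ := mem_filter.1 hq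
          obtain ⟨h5, h6⟩ := mem_Ico.1 h1
          exact ⟨h2, h5, h6, h3⟩) hD
      exact (mem_filter.1 hq).2.2.2 hqD
    -- covering
    have hcover : (range (N + 1)).filter (fun a => ∃ m q : ℕ, a = m * q ∧ 1 ≤ m ∧
        q.Prime ∧ (N : ℝ) ^ ε < q ∧ ¬ q ∣ m ∧
        (m.primeFactorsList.length : ℝ) ≤ √(ε / 64) * Real.sqrt (Real.log N) ∧ ¬ Dense a) ⊆
        Ms.biUnion fun m => (range L).biUnion fun i => (F m i).image fun q => m * q := by
      intro a ha
      obtain ⟨haN, m, q, rfl, hm1, hq, hqN, hqm, hmw, hD⟩ := mem_filter.1 ha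
      have haN' : m * q ≤ N := by
        have := mem_range.1 haN
        omega
      have hq0 : (0 : ℝ) < q := by exact_mod_cast hq.pos
      have hNε : (0 : ℝ) < (N : ℝ) ^ ε := by positivity
      have hmM : m ≤ M := by
        refine Nat.le_floor ?_
        have h1 : (m : ℝ) * q ≤ N := by exact_mod_cast haN'
        rw [Real.rpow_sub hN0, Real.rpow_one, le_div_iff₀ hNε]
        have h2 : (0 : ℝ) ≤ m := Nat.cast_nonneg _
        nlinarith
      have hqY : Y0 ≤ q := by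
        have h1 : ⌊(N : ℝ) ^ ε⌋₊ < q := (Nat.floor_lt hNε.le).2 hqN
        omega
      have hdiv : q / Y0 ≠ 0 := by
        have := Nat.div_pos hqY (by omega)
        omega
      have hqN' : q ≤ N := (Nat.le_mul_of_pos_left q hm1).trans haN'
      refine mem_biUnion.2 ⟨m, mem_filter.2 ⟨mem_Icc.2 ⟨hm1, hmM⟩, hmw⟩, mem_biUnion.2
        ⟨Nat.log 2 (q / Y0), mem_range.2 ?_, mem_image.2 ⟨q, mem_filter.2 ⟨mem_Ico.2 ⟨?_, ?_⟩,
          hq, hqm, hD⟩, rfl⟩⟩⟩
      · have h1 : Nat.log 2 (q / Y0) ≤ Nat.log 2 N :=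
          Nat.log_mono_right ((Nat.div_le_self _ _).trans hqN')
        omega
      · have h1 := Nat.pow_log_le_self 2 hdiv
        exact (Nat.mul_le_mul_right _ h1).trans (Nat.div_mul_le_self _ _)
      · have h1 := Nat.lt_pow_succ_log_self (b := 2) (by norm_num) (q / Y0)
        have h2 : q < 2 ^ (Nat.log 2 (q / Y0) + 1) * Y0 :=
          (Nat.div_lt_iff_lt_mul (by omega)).1 h1
        calc q < 2 ^ (Nat.log 2 (q / Y0) + 1) * Y0 := h2
          _ = 2 * (2 ^ Nat.log 2 (q / Y0) * Y0) := by rw [pow_succ]; ring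
    have hcount : (((range (N + 1)).filter (fun a => ∃ m q : ℕ, a = m * q ∧ 1 ≤ m ∧
        q.Prime ∧ (N : ℝ) ^ ε < q ∧ ¬ q ∣ m ∧
        (m.primeFactorsList.length : ℝ) ≤ √(ε / 64) * Real.sqrt (Real.log N) ∧
          ¬ Dense a)).card : ℝ) ≤ M * (L * (C1 * (C2 * (N : ℝ) ^ (ε / 4)))) := by
      have hB0 : 0 ≤ C1 * (C2 * (N : ℝ) ^ (ε / 4)) := by positivity
      refine (Nat.cast_le.2 (card_le_card hcover)).trans ?_
      refine (Nat.cast_le.2 card_biUnion_le).trans ?_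
      push_cast
      refine (sum_le_sum (g := fun _ => (L * (C1 * (C2 * (N : ℝ) ^ (ε / 4))) : ℝ)) ?_).trans ?_
      · intro m hm
        refine (Nat.cast_le.2 card_biUnion_le).trans ?_
        push_cast
        refine (sum_le_sum (g := fun _ => C1 * (C2 * (N : ℝ) ^ (ε / 4))) ?_).trans ?_
        · intro i _
          exact (Nat.cast_le.2 card_image_le).trans (hblock m hm i)
        · rw [sum_const, card_range, nsmul_eq_mul]
      · rw [sum_const, nsmul_eq_mul]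
        refine mul_le_mul_of_nonneg_right ?_ (by positivity)
        have h1 : Ms.card ≤ M := (card_filter_le _ _).trans (by rw [Nat.card_Icc]; omega)
        exact_mod_cast h1
    have hMle : (M : ℝ) ≤ (N : ℝ) ^ (1 - ε) := Nat.floor_le (by positivity)
    have hLle : (L : ℝ) ≤ Real.log N / Real.log 2 + 1 := by
      rw [hL]
      push_cast
      have h1 : ((Nat.log 2 N : ℕ) : ℝ) ≤ Real.logb 2 N := Real.natLog_le_logb N 2
      have h2 : Real.logb 2 N = Real.log N / Real.log 2 := rfl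
      linarith
    have hB0 : 0 ≤ C1 * (C2 * (N : ℝ) ^ (ε / 4)) := by positivity
    have hL0 : (0 : ℝ) ≤ L := Nat.cast_nonneg _
    rw [div_le_iff₀ hN0]
    refine hcount.trans ?_
    calc (M : ℝ) * (L * (C1 * (C2 * (N : ℝ) ^ (ε / 4))))
        ≤ (N : ℝ) ^ (1 - ε) * ((Real.log N / Real.log 2 + 1) *
            (C1 * (C2 * (N : ℝ) ^ (ε / 4)))) := by gcongr
      _ = C1 * C2 * ((Real.log N / Real.log 2 + 1) *
            ((N : ℝ) ^ (1 - ε) * (N : ℝ) ^ (ε / 4))) := by ring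
      _ = C1 * C2 * ((Real.log N / Real.log 2 + 1) *
            ((N : ℝ) ^ (-(3 * ε / 4)) * (N : ℝ) ^ (1 : ℝ))) := by
          rw [← Real.rpow_add hN0, ← Real.rpow_add hN0]
          congr 3
          ring
      _ = C1 * C2 * ((Real.log N / Real.log 2 + 1) * (N : ℝ) ^ (-(3 * ε / 4))) * N := by
          rw [Real.rpow_one]
          ring
  refine squeeze_zero' (Eventually.of_forall fun N => by positivity) key ?_
  have hs : 0 < 3 * ε / 4 := by positivity
  have t1 : Tendsto (fun x : ℝ => Real.log x * x ^ (-(3 * ε / 4))) atTop (𝓝 0) := by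
    have h1 := (isLittleO_log_rpow_atTop hs).tendsto_div_nhds_zero
    refine h1.congr' ?_
    filter_upwards [eventually_gt_atTop 0] with x hx
    rw [Real.rpow_neg hx.le, div_eq_mul_inv]
  have t2 : Tendsto (fun x : ℝ => x ^ (-(3 * ε / 4))) atTop (𝓝 0) := tendsto_rpow_neg_atTop hs
  have t3 : Tendsto (fun x : ℝ => C1 * C2 * ((Real.log x / Real.log 2 + 1) *
      x ^ (-(3 * ε / 4)))) atTop (𝓝 0) := by
    have h4 : Tendsto (fun x : ℝ => C1 * C2 * ((Real.log 2)⁻¹ * (Real.log x * x ^ (-(3 * ε / 4))) +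
        x ^ (-(3 * ε / 4)))) atTop (𝓝 (C1 * C2 * ((Real.log 2)⁻¹ * 0 + 0))) :=
      ((t1.const_mul _).add t2).const_mul _
    have h5 : C1 * C2 * ((Real.log 2)⁻¹ * 0 + 0) = 0 := by ring
    rw [h5] at h4
    refine h4.congr fun x => ?_
    rw [div_eq_mul_inv]
    ring
  exact t3.comp tendsto_natCast_atTop_atTop

end Pool.Agent.Helper68.NF
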