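import Pool.Agent.Helper18.NF.StC
import Pool.Agent.Helper68.NF.Above

/-!
# Project NF, module NF-29: almost all multiples of a fixed `m`
-/

set_option autoImplicit false

open Finset Filter Topology
open Pool.Agent.Helper18.NF Pool.Agent.Helper18.BV
open scoped Classical

namespace Pool.Agent.Helper68.NF

/-- Module NF-29. -/
theorem fixedMul (h : MainK) : FixedMul := by
  obtain ⟨C1, hC1, hM⟩ := h
  intro m hm
  set w : ℕ := m.primeFactorsList.length with hw
  obtain ⟨LB, hcard, hLB⟩ := exists_primes_above (3 + w) (by omega) w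
  set D : ℕ := ∏ l ∈ ({3} : Finset ℕ) ∪ LB, l with hD
  set Y0 : ℕ := 5 + 2 * m + (∑ l ∈ ({3} : Finset ℕ) ∪ LB, l) with hY0
  set B : ℝ := C1 * (D : ℝ) ^ 4 with hB
  have hB0 : 0 ≤ B := by positivity
  have hl2 : 0 < Real.log 2 := Real.log_pos (by norm_num)
  let F : ℕ → Finset ℕ := fun i =>
    (Ico (2 ^ i * Y0) (2 * (2 ^ i * Y0))).filter fun q => q.Prime ∧ ¬ q ∣ m ∧ ¬ Dense (m * q)
  have hblock : ∀ i : ℕ, ((F i).card : ℝ) ≤ B := by
    intro i
    by_contra hcon
    rw [not_le] at hcon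
    have hYge : Y0 ≤ 2 ^ i * Y0 := Nat.le_mul_of_pos_left _ (by positivity)
    obtain ⟨q, hq, hqD⟩ := hM m 1 (2 ^ i * Y0) {3} LB hm (by omega)
      (fun l hl => by
        rw [mem_singleton.1 hl]
        exact ⟨Nat.prime_three, by norm_num⟩)
      (fun l hl hl2 hlT => by
        rw [mem_singleton]
        have h1 := hl.two_le
        have h3 : max 3 1 = 3 := rfl
        omega)
      (fun l hl => by
        obtain ⟨h1, h2, -⟩ := hLB l hl
        refine ⟨h1, by omega, ?_⟩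
        rw [mem_singleton]
        omega) hcard
      (fun l hl => by
        have := (hLB l hl).2.1
        omega)
      (fun l hl => by
        have h1 : l ≤ ∑ l ∈ ({3} : Finset ℕ) ∪ LB, l :=
          single_le_sum (f := fun l => l) (fun _ _ => Nat.zero_le _) hl
        omega)
      (by
        have h1 : 2 * m ≤ 2 ^ i * Y0 := by omega
        calc 2 * m * (2 ^ i * Y0) ≤ (2 ^ i * Y0) * (2 ^ i * Y0) := Nat.mul_le_mul_right _ h1
          _ = (2 ^ i * Y0) ^ (1 + 1) := by ring) (F i)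
      (fun q hq => by
        obtain ⟨h1, h2, h3, h4⟩ := mem_filter.1 hq
        obtain ⟨h5, h6⟩ := mem_Ico.1 h1
        exact ⟨h2, h5, h6, h3⟩) hcon.le
    exact (mem_filter.1 hq).2.2.2 hqD
  refine ⟨(Y0 + 2 * B) / Real.log 2, by positivity, ?_⟩
  intro x hx
  have hx0 : 0 < x := by linarith
  have hfl : 2 ≤ ⌊x⌋₊ := Nat.le_floor (by exact_mod_cast hx)
  set L : ℕ := Nat.log 2 ⌊x⌋₊ + 1 with hL
  have hsub : {q : ℕ | q.Prime ∧ (q : ℝ) ≤ x ∧ ¬ Dense (m * q)} ⊆
      ((range Y0 ∪ (range L).biUnion F : Finset ℕ) : Set ℕ) := by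
    intro q hq
    obtain ⟨hqp, hqx, hqD⟩ := hq
    rw [mem_coe, mem_union]
    by_cases hqY : q < Y0
    · exact Or.inl (mem_range.2 hqY)
    · right
      have hqY' : Y0 ≤ q := not_lt.1 hqY
      have hdiv : q / Y0 ≠ 0 := by
        have := Nat.div_pos hqY' (by omega)
        omega
      have hqx' : q ≤ ⌊x⌋₊ := Nat.le_floor hqx
      refine mem_biUnion.2 ⟨Nat.log 2 (q / Y0), mem_range.2 ?_, mem_filter.2 ⟨mem_Ico.2 ⟨?_, ?_⟩,
        hqp, ?_, hqD⟩⟩
      · have h1 : Nat.log 2 (q / Y0) ≤ Nat.log 2 ⌊x⌋₊ :=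
          Nat.log_mono_right ((Nat.div_le_self _ _).trans hqx')
        omega
      · have h1 := Nat.pow_log_le_self 2 hdiv
        exact (Nat.mul_le_mul_right _ h1).trans (Nat.div_mul_le_self _ _)
      · have h1 := Nat.lt_pow_succ_log_self (b := 2) (by norm_num) (q / Y0)
        have h2 : q < 2 ^ (Nat.log 2 (q / Y0) + 1) * Y0 :=
          (Nat.div_lt_iff_lt_mul (by omega)).1 h1
        calc q < 2 ^ (Nat.log 2 (q / Y0) + 1) * Y0 := h2
          _ = 2 * (2 ^ Nat.log 2 (q / Y0) * Y0) := by rw [pow_succ]; ring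
      · intro hdvd
        have := Nat.le_of_dvd (by omega) hdvd
        omega
  have h1 : ({q : ℕ | q.Prime ∧ (q : ℝ) ≤ x ∧ ¬ Dense (m * q)}.ncard : ℝ) ≤ Y0 + L * B := by
    have h2 := Set.ncard_le_ncard hsub (Finset.finite_toSet _)
    rw [Set.ncard_coe_finset] at h2
    refine (Nat.cast_le.2 h2).trans ?_
    refine (Nat.cast_le.2 (card_union_le _ _)).trans ?_
    rw [card_range, Nat.cast_add]
    refine add_le_add le_rfl ?_
    refine (Nat.cast_le.2 card_biUnion_le).trans ?_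
    rw [Nat.cast_sum]
    refine (sum_le_sum fun i _ => hblock i).trans ?_
    rw [sum_const, card_range, nsmul_eq_mul]
  have hlogx : Real.log 2 ≤ Real.log x := Real.log_le_log (by norm_num) hx
  have hLle : (L : ℝ) * Real.log 2 ≤ 2 * Real.log x := by
    rw [hL]
    push_cast
    have h2 : ((Nat.log 2 ⌊x⌋₊ : ℕ) : ℝ) ≤ Real.logb 2 ⌊x⌋₊ := Real.natLog_le_logb _ 2
    have h3 : Real.logb 2 ⌊x⌋₊ ≤ Real.logb 2 x := by
      refine Real.logb_le_logb_of_le (by norm_num) ?_ (Nat.floor_le hx0.le)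
      have : 0 < ⌊x⌋₊ := by omega
      exact_mod_cast this
    have h4 : Real.logb 2 x * Real.log 2 = Real.log x := by
      rw [Real.logb, div_mul_cancel₀ _ hl2.ne']
    nlinarith
  rw [div_mul_eq_mul_div, le_div_iff₀ hl2]
  have hY : (0 : ℝ) ≤ Y0 := Nat.cast_nonneg _
  calc ({q : ℕ | q.Prime ∧ (q : ℝ) ≤ x ∧ ¬ Dense (m * q)}.ncard : ℝ) * Real.log 2
      ≤ (Y0 + L * B) * Real.log 2 := mul_le_mul_of_nonneg_right h1 hl2.le
    _ = Y0 * Real.log 2 + B * (L * Real.log 2) := by ring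
    _ ≤ Y0 * Real.log x + B * (2 * Real.log x) := by gcongr
    _ = (Y0 + 2 * B) * Real.log x := by ring

end Pool.Agent.Helper68.NF
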