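import Pool.Agent.Helper18.NF.StC
import Pool.Agent.Helper44.MertensProd

/-!
# Project NF, module NF-31: few integers have many prime factors
-/

set_option autoImplicit false

open Finset Filter Topology
open Pool.Agent.Helper18.NF Pool.Agent.Helper18.BV

namespace Pool.Agent.Helper68.NF

theorem length_eq_sum (n : ℕ) :
    n.primeFactorsList.length = ∑ p ∈ n.primeFactors, n.factorization p := by
  rw [← List.sum_toFinset_count_eq_length]
  refine Finset.sum_congr rfl fun p _ => ?_
  rw [Nat.primeFactorsList_count_eq]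

theorem sum_length (N : ℕ) :
    ∑ a ∈ Icc 1 N, a.primeFactorsList.length = (N.factorial).primeFactorsList.length := by
  induction N with
  | zero => simp
  | succ N ih =>
    rw [sum_Icc_succ_top (by omega), ih, Nat.factorial_succ, ← ArithmeticFunction.cardFactors_apply,
      ← ArithmeticFunction.cardFactors_apply, ← ArithmeticFunction.cardFactors_apply,
      ArithmeticFunction.cardFactors_mul (by omega) (Nat.factorial_ne_zero N), add_comm]

theorem factorization_factorial_le (N p : ℕ) (hp : p.Prime) :
    ((N.factorial.factorization p : ℕ) : ℝ) ≤ 2 * N * (1 / (p : ℝ)) := by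
  haveI : Fact p.Prime := ⟨hp⟩
  have h1 := sub_one_mul_padicValNat_factorial (p := p) N
  rw [← Nat.factorization_def _ hp] at h1
  have h2 : (p - 1) * N.factorial.factorization p ≤ N := by
    rw [h1]
    exact Nat.sub_le _ _
  have h3 : p * N.factorial.factorization p ≤ 2 * N := by
    have h4 : p ≤ 2 * (p - 1) := by
      have := hp.two_le
      omega
    calc p * N.factorial.factorization p ≤ 2 * (p - 1) * N.factorial.factorization p :=
          Nat.mul_le_mul_right _ h4
      _ = 2 * ((p - 1) * N.factorial.factorization p) := by ring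
      _ ≤ 2 * N := by omega
  have h5 : (p : ℝ) * (N.factorial.factorization p : ℕ) ≤ 2 * N := by exact_mod_cast h3
  have hp0 : (0 : ℝ) < p := by exact_mod_cast hp.pos
  rw [mul_one_div, le_div_iff₀ hp0]
  linarith

theorem sum_length_le (N : ℕ) :
    ((∑ a ∈ Icc 1 N, a.primeFactorsList.length : ℕ) : ℝ) ≤
      2 * N * ∑ q ∈ Pool.Agent.Helper44.primesUpTo N, (1 : ℝ) / q := by
  rw [sum_length, length_eq_sum, Nat.cast_sum, mul_sum]
  have hsub : N.factorial.primeFactors ⊆ Pool.Agent.Helper44.primesUpTo N := by
    intro p hp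
    have hpp := Nat.prime_of_mem_primeFactors hp
    have hdvd := Nat.dvd_of_mem_primeFactors hp
    rw [Pool.Agent.Helper44.mem_primesUpTo (Nat.cast_nonneg _)]
    exact ⟨hpp, by exact_mod_cast (hpp.dvd_factorial).1 hdvd⟩
  refine (sum_le_sum fun p hp => factorization_factorial_le N p
    (Nat.prime_of_mem_primeFactors hp)).trans ?_
  exact sum_le_sum_of_subset_of_nonneg hsub fun p _ _ => by positivity

/-- Module NF-31. -/
theorem omegaL : OmegaL := by
  classical
  obtain ⟨C, hC, hM⟩ := Pool.Agent.Helper44.sum_primesUpTo_bounds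
  intro δ hδ
  have key : ∀ᶠ N : ℕ in atTop, (((range (N + 1)).filter (fun a => 1 ≤ a ∧
      δ * Real.sqrt (Real.log N) < (a.primeFactorsList.length : ℝ))).card : ℝ) / N ≤
      2 / δ * ((Real.log (Real.log N) + C) / Real.sqrt (Real.log N)) := by
    filter_upwards [eventually_ge_atTop 3] with N hN
    have hNr : (3 : ℝ) ≤ N := by exact_mod_cast hN
    have hN0 : (0 : ℝ) < N := by linarith
    have hlog : 0 < Real.log N := Real.log_pos (by linarith)
    have hs : 0 < Real.sqrt (Real.log N) := Real.sqrt_pos.2 hlog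
    have h1 := hM N (by linarith)
    rw [abs_le] at h1
    have h2 := sum_length_le N
    set E := (range (N + 1)).filter (fun a => 1 ≤ a ∧
      δ * Real.sqrt (Real.log N) < (a.primeFactorsList.length : ℝ)) with hE
    have h3 : (E.card : ℝ) * (δ * Real.sqrt (Real.log N)) ≤
        ((∑ a ∈ Icc 1 N, a.primeFactorsList.length : ℕ) : ℝ) := by
      rw [Nat.cast_sum, ← nsmul_eq_mul, ← sum_const]
      have hsub : E ⊆ Icc 1 N := by
        intro a ha
        obtain ⟨ha1, ha2, -⟩ := mem_filter.1 ha
        exact mem_Icc.2 ⟨ha2, by have := mem_range.1 ha1; omega⟩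
      calc ∑ _a ∈ E, δ * Real.sqrt (Real.log N)
          ≤ ∑ a ∈ E, (a.primeFactorsList.length : ℝ) :=
            sum_le_sum fun a ha => (mem_filter.1 ha).2.2.le
        _ ≤ ∑ a ∈ Icc 1 N, (a.primeFactorsList.length : ℝ) :=
            sum_le_sum_of_subset_of_nonneg hsub fun a _ _ => Nat.cast_nonneg _
    have h4 : (E.card : ℝ) * (δ * Real.sqrt (Real.log N)) ≤
        2 * N * (Real.log (Real.log N) + C) := by
      refine h3.trans (h2.trans ?_)
      refine mul_le_mul_of_nonneg_left ?_ (by positivity)
      linarith [h1.2]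
    rw [div_le_iff₀ hN0, div_mul_div_comm, div_mul_eq_mul_div, le_div_iff₀ (by positivity)]
    linarith
  refine squeeze_zero' (Eventually.of_forall fun N => by positivity) key ?_
  have hl : Tendsto (fun N : ℕ => Real.log N) atTop atTop :=
    Real.tendsto_log_atTop.comp tendsto_natCast_atTop_atTop
  have t1 : Tendsto (fun x : ℝ => Real.log x / Real.sqrt x) atTop (𝓝 0) := by
    have h1 := (isLittleO_log_rpow_atTop (show (0 : ℝ) < 1 / 2 by norm_num)).tendsto_div_nhds_zero
    refine h1.congr fun x => ?_
    rw [Real.sqrt_eq_rpow]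
  have t2 : Tendsto (fun x : ℝ => C / Real.sqrt x) atTop (𝓝 0) :=
    Tendsto.div_atTop tendsto_const_nhds Real.tendsto_sqrt_atTop
  have t3 : Tendsto (fun x : ℝ => 2 / δ * ((Real.log x + C) / Real.sqrt x)) atTop (𝓝 0) := by
    have h4 := (t1.add t2).const_mul (2 / δ)
    rw [add_zero, mul_zero] at h4
    refine h4.congr fun x => ?_
    rw [add_div]
  exact t3.comp hl

end Pool.Agent.Helper68.NF
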